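import Mathlib
import Pool.Agent.H6Crit

set_option autoImplicit false

open Set Pool.Agent.H6Crit

namespace Pool.Agent.Results.MP_8b3477_lc.MinimalLines

section
variable {B C : Type} [LinearOrder B] [LinearOrder C]

lemma double (hB : H6Crit.Min B) {X : Type} [LinearOrder X] (h : Emb X B) :
    Emb (Lex (X ⊕ X)) B := by
  obtain ⟨F, hF, hF'⟩ := hB.omega
  obtain ⟨g, hg⟩ := h
  refine ⟨fun z => Sum.elim (fun x => F 0 (g x)) (fun x => F 1 (g x)) (ofLex z), ?_⟩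
  rintro (x | x) (y | y) hxy
  · exact hF 0 (hg (Sum.Lex.inl_lt_inl_iff.1 hxy))
  · exact hF' 0 1 _ _ one_pos
  · exact absurd hxy Sum.Lex.not_inr_lt_inl
  · exact hF 1 (hg (Sum.Lex.inr_lt_inr_iff.1 hxy))

lemma embL : Emb B (Lex (B ⊕ C)) := ⟨fun b => toLex (Sum.inl b), Sum.Lex.inl_strictMono⟩
lemma embR : Emb C (Lex (B ⊕ C)) := ⟨fun b => toLex (Sum.inr b), Sum.Lex.inr_strictMono⟩

lemma small (hB : H6Crit.Min B) (hC : H6Crit.Min C) {X : Type} [LinearOrder X]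
    (h : Emb X (Lex (B ⊕ C))) (hn : ¬ Emb (Lex (B ⊕ C)) X) : Emb X B ∨ Emb X C := by
  obtain ⟨f, hf⟩ := h
  let F : X → Alt B C := fun x => toLex (0, f x)
  have hF : StrictMono F := fun x y h => Prod.Lex.toLex_lt_toLex.2 (Or.inr ⟨rfl, hf h⟩)
  have hl : ∀ x, lev (F x) ≤ 1 := by
    intro x
    simp only [lev, F, ofLex_toLex]
    rcases ofLex (f x) with b | c <;> simp
  have e0 : Emb {x // lev (F x) = 0} B := emb0 (fun y => F y.1) (fun _ _ h => hF h) 0 fun y => y.2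
  have e1 : Emb {x // lev (F x) = 1} C := emb1 (fun y => F y.1) (fun _ _ h => hF h) 0 fun y => y.2
  have hm : Monotone fun x => lev (F x) := fun _ _ h => lev_mono (hF.monotone h)
  by_cases h1 : Countable {x // lev (F x) = 1}
  · left
    refine hB.glue _ hm fun n => ?_
    match n with
    | 0 => exact e0
    | 1 => exact hB.of_count _
    | n + 2 => exact ⟨fun y => absurd y.2 (by have := hl y.1; omega),
        fun y => absurd y.2 (by have := hl y.1; omega)⟩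
  by_cases h0 : Countable {x // lev (F x) = 0}
  · right
    refine hC.glue _ hm fun n => ?_
    match n with
    | 0 => exact hC.of_count _
    | 1 => exact e1
    | n + 2 => exact ⟨fun y => absurd y.2 (by have := hl y.1; omega),
        fun y => absurd y.2 (by have := hl y.1; omega)⟩
  exfalso
  obtain ⟨u, hu⟩ := hB.of_unc h0 e0
  obtain ⟨v, hv⟩ := hC.of_unc h1 e1
  refine hn ⟨fun z => Sum.elim (fun b => (u b).1) (fun c => (v c).1) (ofLex z), ?_⟩
  rintro (x | x) (y | y) hxy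
  · exact hu (Sum.Lex.inl_lt_inl_iff.1 hxy)
  · apply hF.lt_iff_lt.1
    apply lt_of_lev
    change lev (F (u x).1) < lev (F (v y).1)
    rw [(u x).2, (v y).2]; exact one_pos
  · exact absurd hxy Sum.Lex.not_inr_lt_inl
  · exact hv (Sum.Lex.inr_lt_inr_iff.1 hxy)

end

theorem result (B C : Type) [LinearOrder B] [LinearOrder C]
    (hBu : Uncountable B) (hBm : ∀ S : Set B, ¬ S.Countable → Nonempty (B ↪o S))
    (hBq : Nonempty (ℚ ↪o B))
    (hCu : Uncountable C) (hCm : ∀ S : Set C, ¬ S.Countable → Nonempty (C ↪o S))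
    (hCq : Nonempty (ℚ ↪o C))
    (hBC : IsEmpty (B ↪o C)) (hCB : IsEmpty (C ↪o B)) :
    (∀ (X : Type) [LinearOrder X],
        Nonempty (X ↪o Lex (B ⊕ C)) → IsEmpty (Lex (B ⊕ C) ↪o X) →
          (Nonempty (Lex (X ⊕ X) ↪o Lex (B ⊕ C)) ∧ IsEmpty (Lex (B ⊕ C) ↪o Lex (X ⊕ X)))) ∧
    IsEmpty (Lex (B ⊕ C) ↪o B) ∧ IsEmpty (Lex (B ⊕ C) ↪o C) := by
  have hB : H6Crit.Min B := ⟨hBu, hBm, hBq⟩
  have hC : H6Crit.Min C := ⟨hCu, hCm, hCq⟩
  have nB : ¬ Emb (Lex (B ⊕ C)) B := fun h => hCB.false (emb_iff.1 (embR.trans h)).some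
  have nC : ¬ Emb (Lex (B ⊕ C)) C := fun h => hBC.false (emb_iff.1 (embL.trans h)).some
  refine ⟨fun X _ h hn => ?_, ⟨fun e => nB (emb_iff.2 ⟨e⟩)⟩, ⟨fun e => nC (emb_iff.2 ⟨e⟩)⟩⟩
  rcases small hB hC (emb_iff.2 h) (fun h => hn.false (emb_iff.1 h).some) with h1 | h1
  · exact ⟨emb_iff.1 ((double hB h1).trans embL),
      ⟨fun e => nB ((emb_iff.2 ⟨e⟩).trans (double hB h1))⟩⟩
  · exact ⟨emb_iff.1 ((double hC h1).trans embR),
      ⟨fun e => nC ((emb_iff.2 ⟨e⟩).trans (double hC h1))⟩⟩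

end Pool.Agent.Results.MP_8b3477_lc.MinimalLines
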